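import Pool.Agent.H2.CX.Step

/-!
# Ramified base change and degenerations to dual numbers
-/

open TensorProduct Module PowerSeries

namespace Pool.Agent.H2.CX

open Pool.Agent.H12.Defect Pool.Agent.H15.Defect Pool.Agent.H2.FI

universe u

section ram

variable (k : Type u) [Field k]

/-- the substitution `X ↦ X²` -/
noncomputable def sqHom : PowerSeries k →+* PowerSeries k :=
  (PowerSeries.expand 2 two_ne_zero : PowerSeries k →ₐ[k] PowerSeries k).toRingHom

theorem sqHom_injective : Function.Injective (sqHom k) := by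
  intro f g h
  ext n
  have h1 := congrArg (PowerSeries.coeff (2 * n)) h
  change PowerSeries.coeff (2 * n) (PowerSeries.expand 2 two_ne_zero f) =
    PowerSeries.coeff (2 * n) (PowerSeries.expand 2 two_ne_zero g) at h1
  rwa [PowerSeries.coeff_expand_mul, PowerSeries.coeff_expand_mul] at h1

theorem constantCoeff_sqHom (f : PowerSeries k) :
    constantCoeff (sqHom k f) = constantCoeff f := PowerSeries.constantCoeff_expand 2 two_ne_zero f

theorem coeff_one_sqHom (f : PowerSeries k) : PowerSeries.coeff 1 (sqHom k f) = 0 :=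
  PowerSeries.coeff_expand_of_not_dvd 2 two_ne_zero f (by norm_num)

/-- a copy of the ring of power series, an algebra over it by `X ↦ X²` -/
def Ram : Type u := PowerSeries k

noncomputable instance : CommRing (Ram k) := inferInstanceAs (CommRing (PowerSeries k))

instance : Nontrivial (Ram k) := inferInstanceAs (Nontrivial (PowerSeries k))

/-- the identity -/
noncomputable def toRam : PowerSeries k ≃+* Ram k := RingEquiv.refl _

noncomputable instance : Algebra (PowerSeries k) (Ram k) :=
  ((toRam k).toRingHom.comp (sqHom k)).toAlgebra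

/-- a copy of the field of Puiseux series -/
def OmR : Type u := Om k

noncomputable instance : Field (OmR k) := inferInstanceAs (Field (Om k))

instance : IsAlgClosed (OmR k) := inferInstanceAs (IsAlgClosed (Om k))

noncomputable instance : Algebra (Ram k) (OmR k) :=
  inferInstanceAs (Algebra (PowerSeries k) (Om k))

noncomputable instance : Algebra (PowerSeries k) (OmR k) :=
  ((algebraMap (Ram k) (OmR k)).comp (algebraMap (PowerSeries k) (Ram k))).toAlgebra

instance : IsScalarTower (PowerSeries k) (Ram k) (OmR k) := IsScalarTower.of_algebraMap_eq' rfl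

theorem algebraMap_omR_injective :
    Function.Injective (algebraMap (PowerSeries k) (OmR k)) := by
  have h1 : Function.Injective (algebraMap (Ram k) (OmR k)) := algebraMap_om_injective (k := k)
  have h2 : Function.Injective (algebraMap (PowerSeries k) (Ram k)) :=
    (toRam k).injective.comp (sqHom_injective k)
  exact h1.comp h2

theorem exists_embedding_ram : ∃ F : Om k →+* OmR k, ∀ x : PowerSeries k,
    F (algebraMap (PowerSeries k) (Om k) x) = algebraMap (PowerSeries k) (OmR k) x := by
  let f0 : LaurentSeries k →+* OmR k := IsFractionRing.lift (A := PowerSeries k)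
    (g := algebraMap (PowerSeries k) (OmR k)) (algebraMap_omR_injective k)
  let _ : Algebra (LaurentSeries k) (OmR k) := f0.toAlgebra
  let F : Om k →ₐ[LaurentSeries k] OmR k := IsAlgClosed.lift
  refine ⟨F.toRingHom, fun x => ?_⟩
  rw [IsScalarTower.algebraMap_apply (PowerSeries k) (LaurentSeries k) (Om k)]
  exact (F.commutes _).trans (IsFractionRing.lift_algebraMap (algebraMap_omR_injective k) x)

variable {k}

theorem isReduced_ram (𝒜 : Type u) [CommRing 𝒜] [Algebra (PowerSeries k) 𝒜]
    [Module.Finite (PowerSeries k) 𝒜] (h : IsReduced (Om k ⊗[PowerSeries k] 𝒜)) :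
    IsReduced (OmR k ⊗[Ram k] (Ram k ⊗[PowerSeries k] 𝒜)) := by
  obtain ⟨F, hF⟩ := exists_embedding_ram k
  let _ : Algebra (Om k) (OmR k) := F.toAlgebra
  have t1 : IsScalarTower (PowerSeries k) (Om k) (OmR k) :=
    IsScalarTower.of_algebraMap_eq fun x => (hF x).symm
  exact isReduced_ext_abstract 𝒜 h

/-- The special fibre modulo `X²` of the ramified family. -/
theorem exists_ramPi {𝒜 : Type u} [CommRing 𝒜] [Algebra (PowerSeries k) 𝒜] {B : Type u}
    [CommRing B] [Algebra k B] {π : 𝒜 →+* B} (h : IsModel k π) {E : Type u} [CommRing E]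
    [Algebra k E] (g : B →ₐ[k] E) :
    ∃ ρ : Ram k ⊗[PowerSeries k] 𝒜 →+* DualNumber E,
      ∀ (a : PowerSeries k) (x : 𝒜), ρ (toRam k a ⊗ₜ x) =
        (TrivSqZeroExt.inl (algebraMap k E (constantCoeff a)) +
          TrivSqZeroExt.inr (algebraMap k E (PowerSeries.coeff 1 a))) *
          TrivSqZeroExt.inl (g (π x)) := by
  let _ : Algebra (PowerSeries k) (DualNumber E) :=
    ((algebraMap k (DualNumber E)).comp (constantCoeff (R := k))).toAlgebra
  have hal : ∀ r : PowerSeries k, algebraMap (PowerSeries k) (DualNumber E) r =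
      algebraMap k (DualNumber E) (constantCoeff r) := fun r => rfl
  have hal2 : ∀ r : k, algebraMap k (DualNumber E) r = TrivSqZeroExt.inl (algebraMap k E r) :=
    fun r => rfl
  let f0 : PowerSeries k →+* DualNumber E :=
    { toFun := fun a => TrivSqZeroExt.inl (algebraMap k E (constantCoeff a)) +
          TrivSqZeroExt.inr (algebraMap k E (PowerSeries.coeff 1 a))
      map_one' := by
        rw [map_one, map_one, PowerSeries.coeff_one]
        simp
      map_mul' := fun a b => by
        ext
        · simp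
        · have hc : PowerSeries.coeff 1 (a * b) = constantCoeff a * PowerSeries.coeff 1 b +
              PowerSeries.coeff 1 a * constantCoeff b := by
            rw [PowerSeries.coeff_mul, Finset.Nat.antidiagonal_succ]
            simp
          simp only [TrivSqZeroExt.snd_add, TrivSqZeroExt.snd_inl, TrivSqZeroExt.snd_inr, zero_add,
            DualNumber.snd_mul, TrivSqZeroExt.fst_add, TrivSqZeroExt.fst_inl,
            TrivSqZeroExt.fst_inr, add_zero]
          rw [hc, map_add, map_mul, map_mul]
      map_zero' := by simp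
      map_add' := fun a b => by
        ext
        · simp
        · simp only [map_add, TrivSqZeroExt.snd_add, TrivSqZeroExt.snd_inl,
            TrivSqZeroExt.snd_inr, zero_add] }
  have hf0 : ∀ a, f0 a = TrivSqZeroExt.inl (algebraMap k E (constantCoeff a)) +
          TrivSqZeroExt.inr (algebraMap k E (PowerSeries.coeff 1 a)) := fun a => rfl
  let f : Ram k →ₐ[PowerSeries k] DualNumber E :=
    { f0.comp (toRam k).symm.toRingHom with
      commutes' := fun r => by
        change f0 (sqHom k r) = _
        rw [hf0, constantCoeff_sqHom, coeff_one_sqHom, map_zero, TrivSqZeroExt.inr_zero, add_zero,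
          hal, hal2] }
  let g' : 𝒜 →ₐ[PowerSeries k] DualNumber E :=
    { (TrivSqZeroExt.inlHom E E).comp (g.toRingHom.comp π) with
      commutes' := fun r => by
        change TrivSqZeroExt.inl (g (π (algebraMap _ 𝒜 r))) = _
        rw [model_algebraMap_eq h, AlgHom.commutes, hal, hal2] }
  refine ⟨(Algebra.TensorProduct.productMap f g').toRingHom, fun a x => ?_⟩
  exact Algebra.TensorProduct.productMap_apply_tmul f g' (toRam k a) x

/-- Degeneration to the dual numbers: if `E` has a smoothable cover of length `N`, then so has every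
quotient of a subalgebra `S` of the dual numbers over `E` in which `ε ∈ S` becomes zero. -/
theorem dle_of_dual {E G : Type u} [CommRing E] [Algebra k E] [CommRing G] [Algebra k G] {N : ℕ}
    (hE : Dle k E N) (S : Subalgebra k (DualNumber E)) (h : DualNumber.eps ∈ S)
    (ψ : S →ₐ[k] G) (hψ : Function.Surjective ψ) (h0 : ψ ⟨DualNumber.eps, h⟩ = 0) :
    Dle k G N := by
  obtain ⟨B, i1, i2, hB, ⟨g, hg⟩, hN⟩ := hE
  obtain ⟨𝒜, j1, j2, π, hπ⟩ := isSmoothable_iff.mp hB
  have hfin := hπ.finite
  have hflat := hπ.flat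
  have hfree := hπ.free
  obtain ⟨ρ, hρ⟩ := exists_ramPi hπ g
  have hfin' : Module.Finite (Ram k) (Ram k ⊗[PowerSeries k] 𝒜) := inferInstance
  have hfree' : Module.Free (Ram k) (Ram k ⊗[PowerSeries k] 𝒜) := inferInstance
  have hred := isReduced_ram 𝒜 hπ.reduced
  have hrank : finrank (Ram k) (Ram k ⊗[PowerSeries k] 𝒜) = finrank k B := by
    rw [Module.finrank_baseChange, hπ.finrank_eq]
  have hone : ∀ a : PowerSeries k, ρ (algebraMap (Ram k) (Ram k ⊗[PowerSeries k] 𝒜) (toRam k a)) =
      TrivSqZeroExt.inl (algebraMap k E (constantCoeff a)) +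
          TrivSqZeroExt.inr (algebraMap k E (PowerSeries.coeff 1 a)) := by
    intro a
    rw [Algebra.TensorProduct.algebraMap_apply]
    change ρ (toRam k a ⊗ₜ (1 : 𝒜)) = _
    rw [hρ, map_one, map_one, TrivSqZeroExt.inl_one, mul_one]
  have hX : ρ (algebraMap (Ram k) (Ram k ⊗[PowerSeries k] 𝒜) (toRam k X)) = DualNumber.eps := by
    rw [hone, PowerSeries.constantCoeff_X, PowerSeries.coeff_one_X, map_zero, map_one,
      TrivSqZeroExt.inl_zero, zero_add]
    rfl
  have hC : ∀ r : k, ρ (algebraMap (Ram k) (Ram k ⊗[PowerSeries k] 𝒜) (toRam k (C r))) =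
      algebraMap k (DualNumber E) r := by
    intro r
    rw [hone, PowerSeries.constantCoeff_C, PowerSeries.coeff_C, if_neg one_ne_zero, map_zero,
      TrivSqZeroExt.inr_zero, add_zero]
    rfl
  have hsurj : Function.Surjective ρ := by
    intro y
    obtain ⟨b0, hb0⟩ := hg (TrivSqZeroExt.fst y)
    obtain ⟨b1, hb1⟩ := hg (TrivSqZeroExt.snd y)
    obtain ⟨a0, ha0⟩ := hπ.surj b0
    obtain ⟨a1, ha1⟩ := hπ.surj b1
    refine ⟨toRam k 1 ⊗ₜ a0 + toRam k X ⊗ₜ a1, ?_⟩
    rw [map_add, hρ, hρ, ha0, ha1, hb0, hb1, PowerSeries.constantCoeff_X, PowerSeries.coeff_one_X]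
    ext
    · simp
    · simp [PowerSeries.coeff_one]
  have hXS : ρ (algebraMap (Ram k) (Ram k ⊗[PowerSeries k] 𝒜) (toRam k X)) ∈ S := by
    rw [hX]; exact h
  have h0' : ψ ⟨_, hXS⟩ = 0 := by
    rw [← h0]
    congr 1
    exact Subtype.ext hX
  have hX2 : ρ (algebraMap (Ram k) (Ram k ⊗[PowerSeries k] 𝒜) (toRam k X)) *
      ρ (algebraMap (Ram k) (Ram k ⊗[PowerSeries k] 𝒜) (toRam k X)) = 0 := by
    rw [hX, DualNumber.eps_mul_eps]
  have key := @dle_of_family k _ (Ram k ⊗[PowerSeries k] 𝒜) (DualNumber E) G _
    (inferInstance : Algebra (Ram k) (Ram k ⊗[PowerSeries k] 𝒜)) hfin' hfree' hred _ _ _ _ ρ hsurj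
    hC hX2 S hXS ψ hψ h0'
  exact key.mono (le_trans (le_of_eq hrank) hN)

end ram

end Pool.Agent.H2.CX
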