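import Pool.Agent.H15.Defect.Arc
import Pool.Agent.H2.FI.Smooth

/-!
# Covers from a family with prescribed special fibre: last step
-/

open TensorProduct Module PowerSeries

namespace Pool.Agent.H2.CX

open Pool.Agent.H12.Defect Pool.Agent.H15.Defect

universe u

variable {k : Type u} [Field k]

/-- If a finite free family `M` with geometrically reduced generic fibre has a surjection `ρ` onto
`E`, `S` is a subalgebra of `E` containing `ρ X`, and `ρ X` dies in the quotient `G` of `S`, then
`G` has a smoothable cover of length the rank of `M`. -/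
theorem dle_of_family {M E G : Type u} [CommRing M] [Algebra (PowerSeries k) M]
    [Module.Finite (PowerSeries k) M] [Module.Free (PowerSeries k) M]
    (hred : IsReduced (Om k ⊗[PowerSeries k] M)) [CommRing E] [Algebra k E] [CommRing G]
    [Algebra k G] (ρ : M →+* E) (hρ : Function.Surjective ρ)
    (hC : ∀ r : k, ρ (algebraMap (PowerSeries k) M (C r)) = algebraMap k E r)
    (hX2 : ρ (algebraMap (PowerSeries k) M X) * ρ (algebraMap (PowerSeries k) M X) = 0)
    (S : Subalgebra k E) (hX : ρ (algebraMap (PowerSeries k) M X) ∈ S) (ψ : S →ₐ[k] G)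
    (hψ : Function.Surjective ψ) (h0 : ψ ⟨_, hX⟩ = 0) :
    Dle k G (finrank (PowerSeries k) M) := by
  have hmem : ∀ f : PowerSeries k, ρ (algebraMap (PowerSeries k) M f) ∈ S := by
    intro f
    obtain ⟨f1, h1⟩ := const_split f
    obtain ⟨f2, h2⟩ := const_split f1
    have h3 : f = C (constantCoeff f) + X * C (constantCoeff f1) + X * X * f2 := by
      conv_lhs => rw [h1, h2]
      ring
    rw [h3, map_add, map_add, map_mul, map_mul, map_mul, map_add, map_add, map_mul, map_mul,
      map_mul, hX2, hC, hC, zero_mul, add_zero]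
    exact S.add_mem (S.algebraMap_mem _) (S.mul_mem hX (S.algebraMap_mem _))
  let P : Subalgebra (PowerSeries k) M :=
    { carrier := {m | ρ m ∈ S}
      mul_mem' := fun {a b} ha hb => by
        change ρ (a * b) ∈ S
        rw [map_mul]; exact S.mul_mem ha hb
      add_mem' := fun {a b} ha hb => by
        change ρ (a + b) ∈ S
        rw [map_add]; exact S.add_mem ha hb
      algebraMap_mem' := hmem }
  let ρ' : P →+* S := (ρ.comp P.toSubring.subtype).codRestrict S.toSubring (fun a => a.2)
  have hρ' : ∀ p : P, ((ρ' p : S) : E) = ρ (p : M) := fun p => rfl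
  obtain ⟨B, i1, i2, π, h⟩ := exists_model_subalgebra (k := k) hred P
  let σ : P →+* G := (ψ : S →+* G).comp ρ'
  obtain ⟨g, hg⟩ := h.exists_lift σ (by
      change ψ (ρ' (algebraMap (PowerSeries k) P X)) = 0
      rw [← h0]
      rfl) (by
      intro r
      change ψ (ρ' (algebraMap (PowerSeries k) P (C r))) = algebraMap k G r
      have h4 : ρ' (algebraMap (PowerSeries k) P (C r)) = algebraMap k S r := by
        apply Subtype.ext
        exact hC r
      rw [h4, AlgHom.commutes])
  refine ⟨B, i1, i2, isSmoothable_iff.mpr ⟨_, _, _, _, h⟩, ⟨g, ?_⟩, ?_⟩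
  · intro y
    obtain ⟨s, rfl⟩ := hψ y
    obtain ⟨m, hm⟩ := hρ (s : E)
    have hmP : m ∈ P := by
      change ρ m ∈ S
      rw [hm]; exact s.2
    refine ⟨π ⟨m, hmP⟩, ?_⟩
    rw [hg]
    change ψ (ρ' ⟨m, hmP⟩) = ψ s
    congr 1
    exact Subtype.ext hm
  · rw [h.finrank_eq]
    exact Submodule.finrank_le (Subalgebra.toSubmodule P)

end Pool.Agent.H2.CX
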